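import Pool.Agent.K9h35.SG.Low
import Pool.Agent.R655.LI.Asph

set_option autoImplicit false
set_option linter.unusedSectionVars false

open scoped Matrix

/-! The Fox matrix of a 2-complex over the complex group ring: exactness in degrees 0 and 1. -/

namespace Pool.Agent.K9h35.WA

open Pool.Agent.K9h35.SG Pool.Agent.R655.LI
open Pool.Agent.Helper777.Prof (Wr mag mag_m)

/-- the canonical map from the integral to the complex group ring -/
noncomputable def Phi (G : Type) [Group G] : MonoidAlgebra ℤ G →+* MonoidAlgebra ℂ G :=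
  MonoidAlgebra.mapRingHom G (Int.castRingHom ℂ)

theorem Phi_coeff (G : Type) [Group G] (x : MonoidAlgebra ℤ G) (g : G) :
    (Phi G x).coeff g = ((x.coeff g : ℤ) : ℂ) := by
  unfold Phi
  simp

theorem Phi_inj (G : Type) [Group G] : Function.Injective (Phi G) := by
  intro x y h
  apply MonoidAlgebra.coeff_injective
  ext g
  have h1 := congrArg (fun z => z.coeff g) h
  simp only [Phi_coeff] at h1
  exact_mod_cast h1

theorem Phi_single (G : Type) [Group G] (g : G) (n : ℤ) :
    Phi G (MonoidAlgebra.single g n) = MonoidAlgebra.single g (n : ℂ) := by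
  unfold Phi
  simp

variable (L : Cx)

/-- the projection of the free group -/
abbrev pj : FreeGroup L.V →* L.Pi := PresentedGroup.mk (Set.range L.r)

/-- the complex Fox derivatives -/
noncomputable def fx (w : FreeGroup L.V) : L.V → MonoidAlgebra ℂ L.Pi :=
  fun v => Phi L.Pi (fox L w v)

theorem fox_mul' (a b : FreeGroup L.V) :
    fox L (a * b) = fox L a + MonoidAlgebra.single (pj L a) (1 : ℤ) • fox L b := by
  classical
  have h1 := mag_m (PresentedGroup.mk (Set.range L.r)) a
  have h2 : MonoidAlgebra.single (pj L a) (1 : ℤ)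
      = MonoidAlgebra.of ℤ L.Pi (mag (PresentedGroup.mk (Set.range L.r)) a).m := by
    rw [h1]
    rfl
  rw [h2]
  unfold fox
  rw [map_mul]
  convert Wr.mul_v _ _

theorem fx_mul (a b : FreeGroup L.V) :
    fx L (a * b) = fx L a + MonoidAlgebra.single (pj L a) (1 : ℂ) • fx L b := by
  funext v
  have h := congrFun (fox_mul' L a b) v
  change Phi L.Pi (fox L (a * b) v) = Phi L.Pi (fox L a v)
    + MonoidAlgebra.single (pj L a) (1 : ℂ) * Phi L.Pi (fox L b v)
  rw [h]
  change Phi L.Pi (fox L a v + MonoidAlgebra.single (pj L a) (1 : ℤ) * fox L b v) = _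
  rw [map_add, map_mul, Phi_single, Int.cast_one]

theorem fx_one : fx L 1 = 0 := by
  have h := fx_mul L 1 1
  rw [mul_one, map_one] at h
  have h1 : (MonoidAlgebra.single (1 : L.Pi) (1 : ℂ)) • fx L 1 = fx L 1 := by
    rw [← MonoidAlgebra.one_def, one_smul]
  rw [h1] at h
  exact left_eq_add.1 h

theorem fx_of [DecidableEq L.V] (v : L.V) :
    fx L (FreeGroup.of v) = Pi.single v 1 := by
  funext u
  unfold fx fox mag
  rw [FreeGroup.lift_apply_of]
  dsimp only
  simp only [Pi.single_apply]
  by_cases h : u = v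
  · rw [if_pos h, if_pos h, map_one]
  · rw [if_neg h, if_neg h, map_zero]

theorem fx_inv (a : FreeGroup L.V) :
    fx L a⁻¹ = -(MonoidAlgebra.single (pj L a)⁻¹ (1 : ℂ) • fx L a) := by
  have h := fx_mul L a⁻¹ a
  rw [inv_mul_cancel, fx_one, map_inv] at h
  exact eq_neg_of_add_eq_zero_left h.symm

variable [Fintype L.V] [DecidableEq L.V] [Fintype L.R] [DecidableEq L.R]

/-- the boundary operators of the universal covering with complex coefficients -/
noncomputable def d0 : Matrix L.V Unit (MonoidAlgebra ℂ L.Pi) :=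
  fun v _ => MonoidAlgebra.single (PresentedGroup.of v : L.Pi) 1 - 1

noncomputable def d1 : Matrix L.R L.V (MonoidAlgebra ℂ L.Pi) := fun j => fx L (L.r j)

theorem single_vecMul (v : L.V) (a : MonoidAlgebra ℂ L.Pi) :
    (Pi.single v a : L.V → MonoidAlgebra ℂ L.Pi) ᵥ* d0 L = fun _ => a *
      (MonoidAlgebra.single (PresentedGroup.of v : L.Pi) 1 - 1) := by
  funext i
  rw [Matrix.single_vecMul]
  rfl

/-- the fundamental formula of the Fox calculus -/
theorem fx_fund (w : FreeGroup L.V) :
    fx L w ᵥ* d0 L = fun _ => MonoidAlgebra.single (pj L w) 1 - 1 := by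
  have hmul : ∀ a b : FreeGroup L.V, fx L a ᵥ* d0 L = (fun _ => MonoidAlgebra.single (pj L a) 1 - 1) →
      fx L b ᵥ* d0 L = (fun _ => MonoidAlgebra.single (pj L b) 1 - 1) →
      fx L (a * b) ᵥ* d0 L = (fun _ => MonoidAlgebra.single (pj L (a * b)) 1 - 1) := by
    intro a b ha hb
    rw [fx_mul, Matrix.add_vecMul, Matrix.smul_vecMul, ha, hb]
    funext i
    change MonoidAlgebra.single (pj L a) (1 : ℂ) - 1 + MonoidAlgebra.single (pj L a) (1 : ℂ)
      * (MonoidAlgebra.single (pj L b) 1 - 1) = _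
    rw [mul_sub, mul_one, MonoidAlgebra.single_mul_single, one_mul, map_mul]
    abel
  have hinv : ∀ a : FreeGroup L.V, fx L a ᵥ* d0 L = (fun _ => MonoidAlgebra.single (pj L a) 1 - 1) →
      fx L a⁻¹ ᵥ* d0 L = (fun _ => MonoidAlgebra.single (pj L a⁻¹) 1 - 1) := by
    intro a ha
    rw [fx_inv, Matrix.neg_vecMul, Matrix.smul_vecMul, ha]
    funext i
    change -(MonoidAlgebra.single (pj L a)⁻¹ (1 : ℂ) * (MonoidAlgebra.single (pj L a) 1 - 1)) = _
    rw [mul_sub, mul_one, MonoidAlgebra.single_mul_single, one_mul, map_inv, inv_mul_cancel,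
      ← MonoidAlgebra.one_def]
    abel
  have hof : ∀ v : L.V, fx L (FreeGroup.of v) ᵥ* d0 L =
      (fun _ => MonoidAlgebra.single (pj L (FreeGroup.of v)) 1 - 1) := by
    intro v
    rw [fx_of, single_vecMul]
    funext i
    rw [one_mul]
    rfl
  induction w using FreeGroup.induction_on with
  | C1 =>
    rw [fx_one, map_one, Matrix.zero_vecMul]
    funext i
    rw [← MonoidAlgebra.one_def, sub_self]
    rfl
  | of v => exact hof v
  | inv_of v h => exact hinv _ h
  | mul a b ha hb => exact hmul a b ha hb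

theorem d1_mul_d0 : d1 L * d0 L = 0 := by
  funext j
  change fx L (L.r j) ᵥ* d0 L = 0
  rw [fx_fund]
  have h : pj L (L.r j) = 1 := PresentedGroup.one_of_mem ⟨j, rfl⟩
  rw [h, ← MonoidAlgebra.one_def, sub_self]
  rfl

/-- the submodule of the boundaries -/
noncomputable abbrev NN1 : Submodule (MonoidAlgebra ℂ L.Pi) (L.V → MonoidAlgebra ℂ L.Pi) :=
  LinearMap.range (Matrix.vecMulLinear (d1 L))

theorem mem_NN1 (x : L.V → MonoidAlgebra ℂ L.Pi) : x ∈ NN1 L ↔ ∃ y, y ᵥ* d1 L = x := Iff.rfl

/-- the derivative of a word which is trivial in the fundamental group is a boundary -/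
theorem fx_ker (w : FreeGroup L.V) (hw : pj L w = 1) : fx L w ∈ NN1 L := by
  let K : Subgroup (FreeGroup L.V) :=
    { carrier := {w | pj L w = 1 ∧ fx L w ∈ NN1 L}
      mul_mem' := by
        rintro a b ⟨ha, ha'⟩ ⟨hb, hb'⟩
        refine ⟨by rw [map_mul, ha, hb, mul_one], ?_⟩
        rw [fx_mul]
        exact Submodule.add_mem _ ha' (Submodule.smul_mem _ _ hb')
      one_mem' := ⟨map_one _, by rw [fx_one]; exact Submodule.zero_mem _⟩
      inv_mem' := by
        rintro a ⟨ha, ha'⟩
        refine ⟨by rw [map_inv, ha, inv_one], ?_⟩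
        rw [fx_inv]
        exact Submodule.neg_mem _ (Submodule.smul_mem _ _ ha') }
  have hK : K.Normal := by
    constructor
    rintro a ⟨ha, ha'⟩ c
    refine ⟨by rw [map_mul, map_mul, ha, mul_one, map_inv, mul_inv_cancel], ?_⟩
    have e : fx L (c * a * c⁻¹) = MonoidAlgebra.single (pj L c) (1 : ℂ) • fx L a := by
      rw [fx_mul, fx_mul, fx_inv, map_mul, ha, mul_one, smul_neg, ← mul_smul,
        MonoidAlgebra.single_mul_single, mul_inv_cancel, one_mul, ← MonoidAlgebra.one_def, one_smul]
      abel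
    rw [e]
    exact Submodule.smul_mem _ _ ha'
  have h1 : Subgroup.normalClosure (Set.range L.r) ≤ K := by
    apply Subgroup.normalClosure_le_normal
    rintro _ ⟨j, rfl⟩
    refine ⟨PresentedGroup.one_of_mem ⟨j, rfl⟩, ?_⟩
    rw [mem_NN1]
    exact ⟨Pi.single j 1, by rw [Matrix.single_one_vecMul]; rfl⟩
  have h2 : w ∈ Subgroup.normalClosure (Set.range L.r) := by
    exact (QuotientGroup.eq_one_iff w).1 hw
  exact (h1 h2).2

/-- exactness in degree one -/
theorem exact_one (x : L.V → MonoidAlgebra ℂ L.Pi) (hx : x ᵥ* d0 L = 0) :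
    ∃ y, y ᵥ* d1 L = x := by
  rw [← mem_NN1]
  have hs : ∀ g : L.Pi, ∃ w : FreeGroup L.V, pj L w = g := PresentedGroup.mk_surjective _
  choose s hs using hs
  -- the derivation
  have key : ∀ (g : L.Pi) (v : L.V), ∃ n ∈ NN1 L,
      fx L (s (g * PresentedGroup.of v)) = fx L (s g) + Pi.single v (MonoidAlgebra.single g 1) + n := by
    intro g v
    have h1 : pj L (s (g * PresentedGroup.of v) * (s g * FreeGroup.of v)⁻¹) = 1 := by
      rw [map_mul, map_inv, hs, map_mul, hs]
      exact mul_inv_cancel _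
    refine ⟨fx L (s (g * PresentedGroup.of v) * (s g * FreeGroup.of v)⁻¹), fx_ker L _ h1, ?_⟩
    have h2 : s (g * PresentedGroup.of v) =
        (s (g * PresentedGroup.of v) * (s g * FreeGroup.of v)⁻¹) * (s g * FreeGroup.of v) := by
      group
    have h3 : fx L (s (g * PresentedGroup.of v)) =
        fx L (s (g * PresentedGroup.of v) * (s g * FreeGroup.of v)⁻¹)
          + fx L (s g * FreeGroup.of v) := by
      conv_lhs => rw [h2]
      rw [fx_mul, h1, ← MonoidAlgebra.one_def, one_smul]
    rw [h3, fx_mul L (s g), fx_of, hs]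
    have h4 : MonoidAlgebra.single g (1 : ℂ) • (Pi.single v 1 : L.V → MonoidAlgebra ℂ L.Pi)
        = Pi.single v (MonoidAlgebra.single g 1) := by
      rw [← Pi.single_smul, smul_eq_mul, mul_one]
    rw [h4]
    abel
  let Λ : MonoidAlgebra ℂ L.Pi →ₗ[ℂ] (L.V → MonoidAlgebra ℂ L.Pi) :=
    (Finsupp.linearCombination ℂ fun g => fx L (s g)) ∘ₗ
      (MonoidAlgebra.coeffLinearEquiv ℂ).toLinearMap
  have hΛ : ∀ (g : L.Pi) (c : ℂ), Λ (MonoidAlgebra.single g c) = c • fx L (s g) := by
    intro g c
    change Finsupp.linearCombination ℂ (fun g => fx L (s g)) (Finsupp.single g c) = _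
    rw [Finsupp.linearCombination_single]
  have hC : ∀ (c : ℂ) (n : L.V → MonoidAlgebra ℂ L.Pi), n ∈ NN1 L → c • n ∈ NN1 L := by
    intro c n hn
    have e : c • n = (MonoidAlgebra.single (1 : L.Pi) c) • n := by
      funext v
      rw [Pi.smul_apply, Pi.smul_apply, smul_eq_mul]
      have : (MonoidAlgebra.single (1 : L.Pi) c) = c • (1 : MonoidAlgebra ℂ L.Pi) := by
        rw [MonoidAlgebra.one_def, MonoidAlgebra.smul_single, smul_eq_mul, mul_one]
      rw [this, smul_mul_assoc, one_mul]
    rw [e]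
    exact Submodule.smul_mem _ _ hn
  have h1 : ∀ (v : L.V) (a : MonoidAlgebra ℂ L.Pi),
      Pi.single v a - Λ (a * (MonoidAlgebra.single (PresentedGroup.of v : L.Pi) 1 - 1)) ∈ NN1 L := by
    intro v a
    induction a using MonoidAlgebra.induction_linear with
    | zero =>
      rw [Pi.single_zero, zero_mul, map_zero, sub_zero]
      exact Submodule.zero_mem _
    | add a b ha hb =>
      rw [Pi.single_add, add_mul, map_add, add_sub_add_comm]
      exact Submodule.add_mem _ ha hb
    | single g c =>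
      obtain ⟨n, hn, e⟩ := key g v
      rw [mul_sub, mul_one, MonoidAlgebra.single_mul_single, mul_one, map_sub, hΛ, hΛ, e]
      have e2 : (Pi.single v (MonoidAlgebra.single g c) : L.V → MonoidAlgebra ℂ L.Pi)
          = c • Pi.single v (MonoidAlgebra.single g 1) := by
        rw [← Pi.single_smul, MonoidAlgebra.smul_single, smul_eq_mul, mul_one]
      rw [e2]
      have e3 : c • (Pi.single v (MonoidAlgebra.single g 1) : L.V → MonoidAlgebra ℂ L.Pi)
          - (c • (fx L (s g) + Pi.single v (MonoidAlgebra.single g 1) + n) - c • fx L (s g))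
          = -(c • n) := by
        rw [smul_add, smul_add]
        abel
      rw [e3]
      exact Submodule.neg_mem _ (hC c n hn)
  have h2 : x - Λ ((x ᵥ* d0 L) ()) ∈ NN1 L := by
    have e : x - Λ ((x ᵥ* d0 L) ()) = ∑ v, (Pi.single v (x v)
        - Λ (x v * (MonoidAlgebra.single (PresentedGroup.of v : L.Pi) 1 - 1))) := by
      rw [Finset.sum_sub_distrib, Finset.univ_sum_single, ← map_sum]
      rfl
    rw [e]
    exact Submodule.sum_mem _ fun v _ => h1 v (x v)
  rw [hx] at h2
  change x - Λ 0 ∈ NN1 L at h2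
  rwa [map_zero, sub_zero] at h2

/-- the generators generate -/
theorem closure_gn : Subgroup.closure (Set.range fun v : L.V => (PresentedGroup.of v : L.Pi)) = ⊤ := by
  exact PresentedGroup.closure_range_of _

open Pool.Agent.N309.PD in
/-- exactness in degree zero -/
theorem aug_zero : ∃ φ : (Unit → MonoidAlgebra ℂ L.Pi) →ₗ[ℂ] ℂ, Aug φ ∧
    ∀ x, (∃ y, y ᵥ* d0 L = x) ↔ φ x = 0 := by
  have h1 : ∀ x : Unit → MonoidAlgebra ℂ L.Pi, (∃ y, y ᵥ* d0 L = x) ↔ augF (fun _ => 1) x = 0 := by
    intro x
    rw [augF_apply]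
    simp only [Finset.univ_unique, Finset.sum_singleton, mul_one]
    constructor
    · rintro ⟨y, rfl⟩
      change augm (∑ v, y v * (MonoidAlgebra.single (PresentedGroup.of v : L.Pi) 1 - 1)) = 0
      rw [map_sum]
      apply Finset.sum_eq_zero
      intro v _
      rw [map_mul, map_sub, map_one]
      have : augm (MonoidAlgebra.single (PresentedGroup.of v : L.Pi) (1 : ℂ)) = 1 := by
        unfold augm
        simp
      rw [this, sub_self, mul_zero]
    · intro hx
      have hx' : chi (1 : L.Pi →* ℂ) (x ()) = 0 := hx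
      obtain ⟨c, hc⟩ := mem_ideal (fun v : L.V => (PresentedGroup.of v : L.Pi)) (closure_gn L) 1
        (x ()) hx'
      refine ⟨c, ?_⟩
      funext i
      rw [← hc]
      rfl
  exact ⟨augF fun _ => 1, aug_of (augF_ne _ (by
    intro h
    exact one_ne_zero (congrFun h ()))) _ h1, h1⟩

end Pool.Agent.K9h35.WA
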