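import Pool.Agent.K9h35.WA.Fox

set_option autoImplicit false
set_option linter.unusedSectionVars false

open scoped Matrix

/-! Levels of the cells of the universal covering of a 2-complex whose fundamental group acts on a
totally ordered set. -/

namespace Pool.Agent.K9h35.WA

open Pool.Agent.K9h35.SG Pool.Agent.R655.LI Pool.Agent.N309.LO Pool.Agent.W649.ZL

universe u

/-- The generator of the fundamental group given by a 1-cell. -/
abbrev gen (L : Cx) (v : L.V) : L.Pi := PresentedGroup.of v

/-- The vertices `a` and `b` of the Cayley graph are the ends of an edge, and both are above `x`. -/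
def Adj (L : Cx) {X : Type u} [MulAction L.Pi X] [LinearOrder X] (x : X) (a b : L.Pi) : Prop :=
  x < a • x ∧ x < b • x ∧ ∃ v : L.V, b = a * gen L v

/-- `a` and `b` are joined by a path in the part of the Cayley graph above `x`. -/
def Joined (L : Cx) {X : Type u} [MulAction L.Pi X] [LinearOrder X] (x : X) : L.Pi → L.Pi → Prop :=
  Relation.EqvGen (Adj L x)

open Classical in
/-- For a 1-cell `v` whose generator moves `x`: the one of the two neighbours `v`, `v⁻¹` of `1` in
the Cayley graph which is above `x`. -/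
noncomputable def asc (L : Cx) {X : Type u} [MulAction L.Pi X] [LinearOrder X] (x : X) (v : L.V) :
    L.Pi :=
  if gen L v • x < x then (gen L v)⁻¹ else gen L v

section
variable (L : Cx) [Fintype L.V] [DecidableEq L.V] [Fintype L.R] [DecidableEq L.R]
variable {X : Type u} [MulAction L.Pi X] [LinearOrder X]

/-- the levels of the edges -/
def w1 (x : X) (v : L.V) : X := min x (gen L v • x)

theorem gen_sub_one_coeff {v : L.V} {g : L.Pi}
    (h : (MonoidAlgebra.single (gen L v) (1 : ℂ) - 1).coeff g ≠ 0) : g = gen L v ∨ g = 1 := by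
  classical
  by_contra hcon
  push Not at hcon
  apply h
  rw [MonoidAlgebra.one_def, MonoidAlgebra.coeff_sub, Finsupp.sub_apply, MonoidAlgebra.coeff_single,
    MonoidAlgebra.coeff_single, Finsupp.single_apply, Finsupp.single_apply,
    if_neg (Ne.symm hcon.1), if_neg (Ne.symm hcon.2), sub_zero]

theorem d0_rl (x : X) : Rl (fun a b => a ≤ b) (w1 L x) (fun _ : Unit => x) (d0 L) := by
  intro v i g hg
  rcases gen_sub_one_coeff L hg with rfl | rfl
  · exact min_le_right _ _
  · rw [one_smul]
    exact min_le_left _ _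

/-- paths -/
theorem joined_chain (x : X) {a b : L.Pi} (h : Joined L x a b) :
    ∃ y, Ch (fun c => x < c) (w1 L x) y ∧
      y ᵥ* d0 L = fun _ => MonoidAlgebra.single b 1 - MonoidAlgebra.single a 1 := by
  induction h with
  | rel a b h =>
    obtain ⟨h1, h2, v, rfl⟩ := h
    refine ⟨Pi.single v (MonoidAlgebra.single a 1), ?_, ?_⟩
    · apply Ch.single
      unfold w1
      rcases min_choice x (gen L v • x) with h | h
      · rw [h]; exact h1
      · rw [h, smul_smul]; exact h2
    · rw [single_vecMul, mul_sub, mul_one, MonoidAlgebra.single_mul_single, mul_one]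
  | refl a =>
    refine ⟨0, Ch.zero _ _, ?_⟩
    rw [Matrix.zero_vecMul, sub_self]
    rfl
  | symm a b _ ih =>
    obtain ⟨y, h1, h2⟩ := ih
    refine ⟨-y, h1.neg, ?_⟩
    rw [Matrix.neg_vecMul, h2]
    funext i
    exact neg_sub _ _
  | trans a b c _ _ ih1 ih2 =>
    obtain ⟨y, h1, h2⟩ := ih1
    obtain ⟨y', h1', h2'⟩ := ih2
    refine ⟨y + y', h1.add h1', ?_⟩
    rw [Matrix.add_vecMul, h2, h2']
    funext i
    rw [Pi.add_apply]
    abel

open Classical in
/-- the coefficient of the edge in the ascending chain -/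
noncomputable def cf (x : X) (v : L.V) : MonoidAlgebra ℂ L.Pi :=
  if gen L v • x < x then -MonoidAlgebra.single (gen L v)⁻¹ 1 else 1

open Classical in
noncomputable def cf' (x : X) (v : L.V) : MonoidAlgebra ℂ L.Pi :=
  if gen L v • x < x then -MonoidAlgebra.single (gen L v) 1 else 1

theorem cf'_mul_cf (x : X) (v : L.V) : cf' L x v * cf L x v = 1 := by
  unfold cf cf'
  split_ifs
  · rw [neg_mul_neg, MonoidAlgebra.single_mul_single, mul_inv_cancel, one_mul, MonoidAlgebra.one_def]
  · rw [one_mul]

/-- the ascending chains -/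
noncomputable def Ep (x : X) : Matrix L.V L.V (MonoidAlgebra ℂ L.Pi) := fun v => Pi.single v (cf L x v)

noncomputable def Cp (x : X) : Matrix L.V L.V (MonoidAlgebra ℂ L.Pi) := fun v => Pi.single v (cf' L x v)

theorem Cp_mul_Ep (x : X) : Cp L x * Ep L x = 1 := by
  funext v
  change (Pi.single v (cf' L x v) : L.V → MonoidAlgebra ℂ L.Pi) ᵥ* Ep L x = _
  rw [Matrix.single_vecMul]
  funext u
  change cf' L x v * (Pi.single v (cf L x v) : L.V → MonoidAlgebra ℂ L.Pi) u = _
  by_cases h : v = u
  · subst h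
    rw [Pi.single_eq_same, cf'_mul_cf, Matrix.one_apply_eq]
  · rw [Pi.single_eq_of_ne (Ne.symm h), mul_zero, Matrix.one_apply_ne h]

theorem Ep_rl (x : X) : Rl (fun a b => a = b) (fun _ : L.V => x) (w1 L x) (Ep L x) := by
  intro v
  unfold Ep cf
  split_ifs with h
  · rw [Pi.single_neg]
    apply Ch.neg
    apply Ch.single
    unfold w1
    rw [min_eq_right h.le, inv_smul_smul]
  · rw [MonoidAlgebra.one_def]
    apply Ch.single
    unfold w1
    rw [min_eq_left (not_lt.1 h), one_smul]

theorem Cp_rl (x : X) : Rl (fun a b => a = b) (w1 L x) (fun _ : L.V => x) (Cp L x) := by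
  intro v
  unfold Cp cf'
  split_ifs with h
  · rw [Pi.single_neg]
    apply Ch.neg
    apply Ch.single
    unfold w1
    rw [min_eq_right h.le]
  · rw [MonoidAlgebra.one_def]
    apply Ch.single
    unfold w1
    rw [min_eq_left (not_lt.1 h), one_smul]

theorem Ep_d0 (x : X) (v : L.V) :
    Ep L x v ᵥ* d0 L = fun _ => MonoidAlgebra.single (asc L x v) 1 - 1 := by
  unfold Ep cf asc
  rw [single_vecMul]
  split_ifs with h
  · funext i
    rw [neg_mul, mul_sub, mul_one, MonoidAlgebra.single_mul_single, inv_mul_cancel, one_mul,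
      ← MonoidAlgebra.one_def, neg_sub]
  · rw [one_mul]

open Classical in
/-- the part of the boundary of the ascending chain at the level `x` -/
noncomputable def ka (x : X) (v : L.V) : MonoidAlgebra ℂ L.Pi :=
  if gen L v • x = x then MonoidAlgebra.single (gen L v) 1 - 1 else -1

theorem Ep_B (hX : OrdInv L.Pi X) (x : X) (v : L.V) :
    Ep L x v ᵥ* lvM (w1 L x) (fun _ : Unit => x) (d0 L) = fun _ => ka L x v := by
  have h0 : Ch (fun a => x = a) (w1 L x) (Ep L x v) := Ep_rl L x v
  have h1 := part_vecMul hX (d0_rl L x) (h0.mono fun a h => h.le)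
  rw [part_self h0, Ep_d0] at h1
  rw [← h1]
  have hs : ∀ (a : L.Pi), (fun _ : Unit => MonoidAlgebra.single a (1 : ℂ) - 1)
      = Pi.single () (MonoidAlgebra.single a 1) + Pi.single () (MonoidAlgebra.single (1 : L.Pi) (-1)) := by
    intro a
    funext i
    rw [Pi.add_apply, Pi.single_eq_same, Pi.single_eq_same, MonoidAlgebra.single_neg,
      ← MonoidAlgebra.one_def, sub_eq_add_neg]
  have h2 : Ch (fun a => x = a) (fun _ : Unit => x)
      (Pi.single () (MonoidAlgebra.single (1 : L.Pi) (-1 : ℂ))) :=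
    Ch.single _ (one_smul _ _).symm
  rw [hs, part_add, part_self h2]
  unfold ka asc
  by_cases h : gen L v • x = x
  · rw [if_pos h, if_neg (by rw [h]; exact lt_irrefl _)]
    have h3 : Ch (fun a => x = a) (fun _ : Unit => x)
        (Pi.single () (MonoidAlgebra.single (gen L v) (1 : ℂ))) := Ch.single _ h.symm
    rw [part_self h3, ← hs]
  · rw [if_neg h]
    have h3 : ∀ a : L.Pi, a • x ≠ x → part (fun a => x = a) (fun _ : Unit => x)
        (Pi.single () (MonoidAlgebra.single a (1 : ℂ))) = 0 := by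
      intro a ha
      have h4 : Ch (fun a => x ≠ a) (fun _ : Unit => x)
          (Pi.single () (MonoidAlgebra.single a (1 : ℂ))) := Ch.single _ (Ne.symm ha)
      exact part_eq_zero h4 fun b h5 h6 => h5 h6
    have h4 : (if gen L v • x < x then (gen L v)⁻¹ else gen L v) • x ≠ x := by
      split_ifs
      · intro h5
        apply h
        rw [inv_smul_eq_iff] at h5
        exact h5.symm
      · exact h
    rw [h3 _ h4, zero_add]
    funext i
    rw [Pi.single_eq_same, MonoidAlgebra.single_neg, ← MonoidAlgebra.one_def]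

theorem gi (hX : OrdInv L.Pi X) (x : X) (t : L.V) (ht : gen L t • x ≠ x) :
    HasGI (w1 L x) (fun _ : Unit => x) (d0 L) := by
  let S : Matrix Unit L.V (MonoidAlgebra ℂ L.Pi) := fun _ => -(Ep L x t)
  have e : S * lvM (w1 L x) (fun _ : Unit => x) (d0 L) = 1 := by
    funext i
    change (-(Ep L x t)) ᵥ* lvM (w1 L x) (fun _ : Unit => x) (d0 L) = _
    rw [Matrix.neg_vecMul, Ep_B L hX]
    funext j
    unfold ka
    rw [if_neg ht, Pi.neg_apply, neg_neg]
    rfl
  refine ⟨S, fun _ => Ch.neg (Ep_rl L x t), ?_⟩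
  rw [Matrix.mul_assoc, e, Matrix.mul_one]

theorem ka_ch (x : X) (v : L.V) (y : L.V → MonoidAlgebra ℂ L.Pi)
    (hy : Ch (fun a => x = a) (w1 L x) y) : Ch (fun a => x = a) (w1 L x) (ka L x v • y) := by
  classical
  intro j g hg
  rw [Pi.smul_apply, smul_eq_mul] at hg
  obtain ⟨s, t, hs, ht, rfl⟩ := coeff_mul_ne hg
  have h1 := hy j t ht
  have h2 : s • x = x := by
    unfold ka at hs
    split_ifs at hs with h
    · rcases gen_sub_one_coeff L hs with rfl | rfl
      · exact h
      · exact one_smul _ _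
    · have : s = 1 := by
        by_contra hne
        apply hs
        rw [MonoidAlgebra.one_def, MonoidAlgebra.coeff_neg, Finsupp.neg_apply,
          MonoidAlgebra.coeff_single, Finsupp.single_apply, if_neg (Ne.symm hne), neg_zero]
      rw [this, one_smul]
  rw [mul_smul, ← h1, h2]

/-- The kernels in degree zero are generated by the chains of the 1-cells in `E`. -/
theorem kgen (hX : OrdInv L.Pi X) (x : X) (E : Finset L.V) (t : L.V) (htE : t ∈ E)
    (ht : gen L t • x ≠ x)
    (h1 : ∀ v, gen L v • x ≠ x → ∃ s ∈ E, gen L s • x ≠ x ∧ Joined L x (asc L x v) (asc L x s))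
    (h2 : ∀ v, v ∉ E → gen L v • x = x → Joined L x (gen L v * asc L x t) (asc L x t)) :
    KGen {s : L.V // s ∈ E.erase t} (w1 L x) (fun _ : Unit => x) (d0 L) := by
  classical
  set T := {s : L.V // s ∈ E.erase t} with hT
  let et : L.V → MonoidAlgebra ℂ L.Pi := Ep L x t
  have het : Ch (fun a => x = a) (w1 L x) et := Ep_rl L x t
  let e : Matrix T L.V (MonoidAlgebra ℂ L.Pi) := fun s => Ep L x s.1 + ka L x s.1 • et
  have he : Rl (fun a b => a = b) (fun _ : T => x) (w1 L x) e := fun s =>
    (Ep_rl L x s.1).add (ka_ch L x s.1 et het)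
  -- rows
  have hrow : ∀ v : L.V, ∃ (q : T → MonoidAlgebra ℂ L.Pi) (y : L.V → MonoidAlgebra ℂ L.Pi),
      Ch (fun a => x = a) (fun _ : T => x) q ∧ Ch (fun a => x < a) (w1 L x) y ∧
      y ᵥ* d0 L = (Ep L x v - q ᵥ* e + ka L x v • et) ᵥ* d0 L := by
    intro v
    by_cases hvT : v ∈ E.erase t
    · refine ⟨Pi.single ⟨v, hvT⟩ 1, 0, ?_, Ch.zero _ _, ?_⟩
      · rw [MonoidAlgebra.one_def]
        exact Ch.single _ (one_smul _ _).symm
      · rw [Matrix.single_one_vecMul]
        have : Ep L x v - e.row ⟨v, hvT⟩ + ka L x v • et = 0 := by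
          change Ep L x v - (Ep L x v + ka L x v • et) + ka L x v • et = 0
          abel
        rw [this]
    by_cases hv : gen L v • x = x
    · have hvE : v ∉ E := by
        intro h
        apply hvT
        rw [Finset.mem_erase]
        refine ⟨?_, h⟩
        rintro rfl
        exact ht hv
      obtain ⟨y, hy1, hy2⟩ := joined_chain L x (h2 v hvE hv).symm
      refine ⟨0, y, Ch.zero _ _, hy1, ?_⟩
      rw [Matrix.zero_vecMul, sub_zero, hy2, Matrix.add_vecMul, Matrix.smul_vecMul, Ep_d0]
      have : et ᵥ* d0 L = _ := Ep_d0 L x t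
      rw [this]
      funext i
      unfold ka
      rw [if_pos hv, Pi.add_apply, Pi.smul_apply, smul_eq_mul]
      have hasc : asc L x v = gen L v := by
        unfold asc
        rw [if_neg (by rw [hv]; exact lt_irrefl _)]
      rw [hasc, sub_mul, mul_sub, mul_one, one_mul, MonoidAlgebra.single_mul_single, one_mul]
      abel
    · obtain ⟨s, hsE, hs, hj⟩ := h1 v hv
      obtain ⟨y, hy1, hy2⟩ := joined_chain L x hj.symm
      have hkv : ka L x v = -1 := by unfold ka; rw [if_neg hv]
      have hks : ka L x s = -1 := by unfold ka; rw [if_neg hs]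
      by_cases hst : s = t
      · subst hst
        refine ⟨0, y, Ch.zero _ _, hy1, ?_⟩
        rw [Matrix.zero_vecMul, sub_zero, hy2, hkv, neg_one_smul, ← sub_eq_add_neg,
          Matrix.sub_vecMul, Ep_d0]
        have : et ᵥ* d0 L = _ := Ep_d0 L x s
        rw [this]
        funext i
        rw [Pi.sub_apply]
        abel
      · have hsT : s ∈ E.erase t := Finset.mem_erase.2 ⟨hst, hsE⟩
        refine ⟨Pi.single ⟨s, hsT⟩ 1, y, ?_, hy1, ?_⟩
        · rw [MonoidAlgebra.one_def]
          exact Ch.single _ (one_smul _ _).symm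
        · rw [Matrix.single_one_vecMul]
          have : Ep L x v - e.row ⟨s, hsT⟩ + ka L x v • et = Ep L x v - Ep L x s := by
            change Ep L x v - (Ep L x s + ka L x s • et) + ka L x v • et = _
            rw [hkv, hks]
            abel
          rw [this, Matrix.sub_vecMul, Ep_d0, Ep_d0, hy2]
          funext i
          rw [Pi.sub_apply]
          abel
  choose Q Y hQ hY hQY using hrow
  let Q' : Matrix L.V T (MonoidAlgebra ℂ L.Pi) := Q
  let Y' : Matrix L.V L.V (MonoidAlgebra ℂ L.Pi) := Y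
  let Kc : Matrix L.V Unit (MonoidAlgebra ℂ L.Pi) := fun v _ => ka L x v
  let Et : Matrix Unit L.V (MonoidAlgebra ℂ L.Pi) := fun _ => et
  have hK : Ep L x * lvM (w1 L x) (fun _ : Unit => x) (d0 L) = Kc := by
    funext v
    exact Ep_B L hX x v
  have hYD : Y' * d0 L = (Ep L x - Q' * e + Kc * Et) * d0 L := by
    funext v
    change Y v ᵥ* d0 L = (Ep L x v - Q v ᵥ* e + Kc v ᵥ* Et) ᵥ* d0 L
    rw [hQY]
    congr 2
    funext u
    change ka L x v * et u = ∑ i : Unit, ka L x v * et u
    simp
  refine ⟨fun _ => x, e, he.mono fun a b h => h.le, ?_⟩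
  intro z b hb hb'
  set b0 := part (fun a => z = a) (w1 L x) b with hb0
  have hb0c : Ch (fun a => z = a) (w1 L x) b0 := part_ch _ _ _
  set β : L.V → MonoidAlgebra ℂ L.Pi := b0 ᵥ* Cp L x with hβ
  have hβc : Ch (fun a => z = a) (fun _ : L.V => x) β :=
    Ch.vecMul (R := fun a b => a = b) eq_smul (fun a b h3 h4 => h3.trans h4) (Cp_rl L x) hb0c
  have hβE : β ᵥ* Ep L x = b0 := by
    rw [hβ, Matrix.vecMul_vecMul, Cp_mul_Ep, Matrix.vecMul_one]
  have hβK : β ᵥ* Kc = 0 := by
    rw [← hK, ← Matrix.vecMul_vecMul, hβE, ← part_vecMul hX (d0_rl L x) hb]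
    exact part_eq_zero hb' fun a h5 h6 => h5.ne h6
  refine ⟨β ᵥ* Q', ?_, β ᵥ* Y' + (b - b0), ?_, ?_⟩
  · exact Ch.vecMul (R := fun a b => a = b) eq_smul (fun a b h3 h4 => h3.trans h4) hQ hβc
  · apply Ch.add
    · exact Ch.vecMul (R := fun a b => a < b) (fun g a b h => OrdInv.lt hX g h)
        (fun a b h3 h4 => by rw [h3]; exact h4) hY hβc
    · exact sub_part_ch hb fun a h3 h4 => lt_of_le_of_ne h3 h4
  · rw [Matrix.add_vecMul, Matrix.vecMul_vecMul, hYD, ← Matrix.vecMul_vecMul, Matrix.vecMul_add,
      Matrix.vecMul_sub, hβE, ← Matrix.vecMul_vecMul, ← Matrix.vecMul_vecMul, hβK,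
      Matrix.zero_vecMul, add_zero, ← Matrix.add_vecMul]
    congr 1
    abel

end

end Pool.Agent.K9h35.WA
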