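import Pool.Agent.K9h35.WA.Lev

set_option autoImplicit false
set_option linter.unusedSectionVars false

open scoped Matrix

/-! The rank of the boundary operator `C₂ → C₁` of the universal covering. -/

namespace Pool.Agent.K9h35.WA

open Pool.Agent.K9h35.SG Pool.Agent.R655.LI Pool.Agent.N309.LO Pool.Agent.W649.ZL
open Pool.Agent.N309.PD (opM opM_eqv pr pr_opM pr_single Aug Lam opM_eq_zero pr_zero_right Lam_injective
  inj cmp cmp_inj cmp_opM)

universe u

section
variable (L : Cx) [Fintype L.V] [DecidableEq L.V] [Fintype L.R] [DecidableEq L.R]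
variable {X : Type u} [MulAction L.Pi X] [LinearOrder X]

/-- the kernel of the operator given by the boundary operator `C₂ → C₁` -/
theorem vd_ker_d1_le (hX : OrdInv L.Pi X) (hub : ∀ x y : X, ∃ g : L.Pi, x < g • y) (x : X)
    (E : Finset L.V) (t : L.V) (htE : t ∈ E) (ht : gen L t • x ≠ x)
    (h1 : ∀ v, gen L v • x ≠ x → ∃ s ∈ E, gen L s • x ≠ x ∧ Joined L x (asc L x v) (asc L x s))
    (h2 : ∀ v, v ∉ E → gen L v • x = x → Joined L x (gen L v * asc L x t) (asc L x t)) :
    vd (LinearMap.ker (opM (d1 L) : EE L.Pi L.V →ₗ[ℂ] EE L.Pi L.R)) ≤ E.card := by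
  have h3 := harm_le_card hX (d1_mul_d0 L) (d0_rl L x) (gi L hX x t ht)
    (kgen L hX x E t htE ht h1 h2) (exact_one L)
  rw [Fintype.card_coe, Finset.card_erase_of_mem htE, vd_harm_eq _ _ (opM_eqv _) (by
    intro F
    rw [← opM_mul, d1_mul_d0, opM_zero'])] at h3
  obtain ⟨φ, hφ, hφ'⟩ := aug_zero L
  have h4 : vd (LinearMap.ker (opM (d0 L) : EE L.Pi Unit →ₗ[ℂ] EE L.Pi L.V)) = 0 := by
    apply vd_ker_of_injective
    rw [injective_iff_map_eq_zero]
    exact fun F hF => van_zero hX (w := fun _ : Unit => x) hub φ hφ hφ' F hF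
  rw [h4, add_zero, Fintype.card_unit] at h3
  have h5 : 1 ≤ E.card := Finset.card_pos.2 ⟨t, htE⟩
  rw [Nat.cast_sub h5] at h3
  simpa using h3

/-- a row vector which is killed by the boundary operator -/
theorem inj_of_rank (h : vd (LinearMap.ker (opM (d1 L) : EE L.Pi L.V →ₗ[ℂ] EE L.Pi L.R))
      ≤ (Fintype.card L.V : ℝ) - Fintype.card L.R) (x : L.R → MonoidAlgebra ℂ L.Pi)
    (hx : x ᵥ* d1 L = 0) : x = 0 := by
  let Xm : Matrix Unit L.R (MonoidAlgebra ℂ L.Pi) := fun _ => x
  have h0 : Xm * d1 L = 0 := by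
    funext i
    exact hx
  have h1 := ker_add_range (opM (d1 L)) (opM_eqv _)
  have h2 := ker_add_range (opM Xm) (opM_eqv _)
  have h3 : vd (LinearMap.range (opM (d1 L) : EE L.Pi L.V →ₗ[ℂ] EE L.Pi L.R))
      ≤ vd (LinearMap.ker (opM Xm : EE L.Pi L.R →ₗ[ℂ] EE L.Pi Unit)) := by
    apply vd_mono
    rintro _ ⟨F, rfl⟩
    change opM Xm (opM (d1 L) F) = 0
    rw [← opM_mul, h0, opM_zero']
  have h4 : vd (LinearMap.range (opM Xm : EE L.Pi L.R →ₗ[ℂ] EE L.Pi Unit)) ≤ 0 := by linarith
  have h5 := eq_bot_of_vd_eq_zero _ (inv_range (opM Xm) (opM_eqv _)) h4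
  have h6 : ∀ F : EE L.Pi L.R, pr x F = 0 := by
    intro F
    have h7 : opM Xm F ∈ LinearMap.range (opM Xm : EE L.Pi L.R →ₗ[ℂ] EE L.Pi Unit) := ⟨F, rfl⟩
    rw [h5, Submodule.mem_bot, opM_eq_zero] at h7
    exact h7 ()
  funext j
  apply Lam_injective
  apply ContinuousLinearMap.ext
  intro f
  have h8 := h6 (inj j f)
  have h9 : pr x (inj j f) = Lam (x j) f := by
    unfold pr
    rw [Finset.sum_eq_single j]
    · rw [cmp_inj, if_pos rfl]
    · intro i _ hi
      rw [cmp_inj, if_neg hi, map_zero]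
    · intro h
      exact absurd (Finset.mem_univ j) h
  rw [← h9, h8, Pi.zero_apply, map_zero]
  rfl

theorem asph_of_inj (h : ∀ x : L.R → MonoidAlgebra ℂ L.Pi, x ᵥ* d1 L = 0 → x = 0) : Asph L := by
  unfold Asph
  rw [injective_iff_map_eq_zero]
  intro c hc
  have h1 : (fun j => Phi L.Pi (c j)) ᵥ* d1 L = 0 := by
    funext v
    have hs : c.sum (fun i a => a • fox L (L.r i)) = ∑ i, c i • fox L (L.r i) :=
      Finsupp.sum_fintype _ _ (fun j => zero_smul _ _)
    have h2 := congrFun hc v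
    rw [Finsupp.linearCombination_apply, hs, Finset.sum_apply] at h2
    change ∑ j, Phi L.Pi (c j) * Phi L.Pi (fox L (L.r j) v) = 0
    simp only [← map_mul]
    rw [← map_sum]
    have h3 : ∑ j, c j * fox L (L.r j) v = 0 := h2
    rw [h3, map_zero]
  have h2 := h _ h1
  ext1 j
  apply Phi_inj
  rw [Finsupp.zero_apply, map_zero]
  exact congrFun h2 j

theorem asc_lt (hX : OrdInv L.Pi X) {x : X} {t : L.V} (ht : gen L t • x ≠ x) :
    x < asc L x t • x := by
  unfold asc
  split_ifs with h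
  · have h1 := OrdInv.lt hX (gen L t)⁻¹ h
    rwa [inv_smul_smul] at h1
  · exact lt_of_le_of_ne (not_lt.1 h) (Ne.symm ht)

/-- passage to the orbit -/
theorem joined_orbit (x : X) {a b : L.Pi} (h : Joined L x a b) :
    Joined L (⟨x, MulAction.mem_orbit_self x⟩ : MulAction.orbit L.Pi x) a b := by
  induction h with
  | rel a b h => exact Relation.EqvGen.rel _ _ h
  | refl a => exact Relation.EqvGen.refl _
  | symm a b _ ih => exact Relation.EqvGen.symm _ _ ih
  | trans a b c _ _ ih1 ih2 => exact Relation.EqvGen.trans _ _ _ ih1 ih2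

theorem vd_ker_le (hX : OrdInv L.Pi X) (x : X)
    (E : Finset L.V) (t : L.V) (htE : t ∈ E) (ht : gen L t • x ≠ x)
    (h1 : ∀ v, gen L v • x ≠ x → ∃ s ∈ E, gen L s • x ≠ x ∧ Joined L x (asc L x v) (asc L x s))
    (h2 : ∀ v, v ∉ E → gen L v • x = x → Joined L x (gen L v * asc L x t) (asc L x t)) :
    vd (LinearMap.ker (opM (d1 L) : EE L.Pi L.V →ₗ[ℂ] EE L.Pi L.R)) ≤ E.card := by
  let x' : MulAction.orbit L.Pi x := ⟨x, MulAction.mem_orbit_self x⟩
  have hX' : OrdInv L.Pi (MulAction.orbit L.Pi x) := fun g a b h => hX g a.1 b.1 h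
  have hne : ∀ v, gen L v • x' ≠ x' ↔ gen L v • x ≠ x := by
    intro v
    rw [Ne, Subtype.ext_iff]
    rfl
  have hasc : ∀ v, asc L x' v = asc L x v := by
    intro v
    unfold asc
    by_cases h : gen L v • x < x
    · rw [if_pos h, if_pos (show gen L v • x' < x' from h)]
    · rw [if_neg h, if_neg (show ¬ gen L v • x' < x' from h)]
  apply vd_ker_d1_le L hX' _ x' E t htE ((hne t).2 ht)
  · intro v hv
    obtain ⟨s, hs, hs', hj⟩ := h1 v ((hne v).1 hv)
    refine ⟨s, hs, (hne s).2 hs', ?_⟩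
    rw [hasc, hasc]
    exact joined_orbit L x hj
  · intro v hv hv'
    rw [hasc]
    exact joined_orbit L x (h2 v hv (Subtype.ext_iff.1 hv'))
  · rintro ⟨a, h, rfl⟩ ⟨b, k, rfl⟩
    refine ⟨h * asc L x t * k⁻¹, ?_⟩
    change h • x < (h * asc L x t * k⁻¹) • (k • x)
    rw [smul_smul, inv_mul_cancel_right, mul_smul]
    exact OrdInv.lt hX h (asc_lt L hX ht)

theorem main (hX : OrdInv L.Pi X) (x : X)
    (E : Finset L.V) (t : L.V) (htE : t ∈ E) (ht : gen L t • x ≠ x)
    (h1 : ∀ v, gen L v • x ≠ x → ∃ s ∈ E, gen L s • x ≠ x ∧ Joined L x (asc L x v) (asc L x s))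
    (h2 : ∀ v, v ∉ E → gen L v • x = x → Joined L x (gen L v * asc L x t) (asc L x t)) :
    Fintype.card L.V ≤ Fintype.card L.R + E.card ∧
      (Fintype.card L.V = Fintype.card L.R + E.card → Asph L) := by
  have h3 := vd_ker_le L hX x E t htE ht h1 h2
  have h4 := ker_add_range (opM (d1 L)) (opM_eqv _)
  have h5 := vd_le_card (LinearMap.range (opM (d1 L) : EE L.Pi L.V →ₗ[ℂ] EE L.Pi L.R))
  constructor
  · have : (Fintype.card L.V : ℝ) ≤ ((Fintype.card L.R + E.card : ℕ) : ℝ) := by
      push_cast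
      linarith
    exact_mod_cast this
  · intro h
    apply asph_of_inj
    apply inj_of_rank
    rw [h]
    push_cast
    linarith

end

section
open Function

theorem exp_sub {L K : Cx} (s : Sub L K) (w : FreeGroup L.V) :
    (expSum K.V (FreeGroup.map s.v w)).toAdd = Finsupp.mapDomain s.v (expSum L.V w).toAdd := by
  have h : (expSum K.V).comp (FreeGroup.map s.v) =
      (AddMonoidHom.toMultiplicative (Finsupp.mapDomain.addMonoidHom s.v)).comp (expSum L.V) := by
    ext1 v
    simp only [MonoidHom.comp_apply, FreeGroup.map.of, expSum, FreeGroup.lift_apply_of]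
    change Multiplicative.ofAdd _ = Multiplicative.ofAdd _
    congr 1
    exact (Finsupp.mapDomain_single).symm
  exact congrArg Multiplicative.toAdd (DFunLike.congr_fun h w)

theorem bdry_sub {L K : Cx} (s : Sub L K) (c : L.R →₀ ℤ) :
    K.bdry (Finsupp.mapDomain s.c c) = Finsupp.mapDomain s.v (L.bdry c) := by
  induction c using Finsupp.induction_linear with
  | zero => simp
  | add a b ha hb => rw [Finsupp.mapDomain_add, map_add, map_add, Finsupp.mapDomain_add, ha, hb]
  | single j n =>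
    rw [Finsupp.mapDomain_single]
    unfold Cx.bdry
    rw [Finsupp.linearCombination_single, Finsupp.linearCombination_single, ← s.comm, exp_sub,
      Finsupp.mapDomain_smul]

/-- The boundary operator `C₂ → C₁` of a subcomplex of a contractible complex is injective. -/
theorem bdry_inj {L K : Cx} (s : Sub L K) (hK : K.Contractible) : Injective L.bdry := by
  rw [injective_iff_map_eq_zero]
  intro c hc
  have h1 := bdry_sub s c
  rw [hc, Finsupp.mapDomain_zero] at h1
  have h2 := hK.bdry_inj (h1.trans (map_zero _).symm)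
  exact Finsupp.mapDomain_injective s.c.injective (h2.trans Finsupp.mapDomain_zero.symm)

/-- The first Betti number. -/
noncomputable def b1 (L : Cx) : ℕ := Module.finrank ℤ ((L.V →₀ ℤ) ⧸ LinearMap.range L.bdry)

theorem b1_eq (L : Cx) [Fintype L.V] [Fintype L.R] (h : Injective L.bdry) :
    Fintype.card L.V = Fintype.card L.R + b1 L := by
  have h1 := Submodule.finrank_quotient_add_finrank (LinearMap.range L.bdry)
  rw [LinearMap.finrank_range_of_inj h, Module.finrank_finsupp_self, Module.finrank_finsupp_self] at h1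
  unfold b1
  omega

end

end Pool.Agent.K9h35.WA
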